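import Pool.Agent.Lib_MP_8178ab_ag.Ana.Final

/-!
# A `π₁`-like functor equal to the topological fundamental groupoid on varieties over the algebraic
numbers and not Galois conjugate to it
-/

open CategoryTheory AlgebraicGeometry MP8178

namespace Pool.Agent.Results.MP_8178ab_ag.TopPiOne

/-- There is a `π₁`-like functor `π` on smooth quasi-projective complex varieties whose restriction
to the varieties and morphisms defined over the field of algebraic numbers is the topological
fundamental groupoid, and such that `π ∘ σ` is not equivalent to the topological fundamental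
groupoid for any automorphism `σ` of the field of complex numbers. -/
theorem result :
    ∃ π : GrpdFunctor ℂ, IsPiOneLike π ∧
      π.res (algebraMap (algebraicClosure ℚ ℂ) ℂ) =
        piTop.res (algebraMap (algebraicClosure ℚ ℂ) ℂ) ∧
      ∀ σ : ℂ ≃+* ℂ, ¬ Equivalent (π.conj σ) piTop := by
  have hac : IsAlgClosed (algebraicClosure ℚ ℂ) :=
    (algebraicClosure.isAlgClosure ℚ ℂ).isAlgClosed
  obtain ⟨l, hl⟩ : ∃ l : ℂ, l ∉ Set.range (algebraMap (algebraicClosure ℚ ℂ) ℂ) := by
    by_contra h
    push Not at h
    have h1 : (Set.univ : Set ℂ).Countable := by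
      refine (Algebraic.countable ℚ ℂ).mono fun z _ => ?_
      obtain ⟨y, rfl⟩ := h z
      exact mem_algebraicClosure_iff.mp y.2
    exact not_countable_complex h1
  exact main_theorem _ l hl two_ne_zero piTop isPiOneLike_piTop

end Pool.Agent.Results.MP_8178ab_ag.TopPiOne
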